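import Mathlib
import Pool.Agent.helper61.DL.Defs4

set_option autoImplicit false

/-! Module FACE of the general Newton polyhedra part of MP_6163c8_ag. -/

namespace Pool.Agent.helper81.DL

open Finset Filter Topology Pool.Agent.helper61.DL Pool.Agent.helper14.NS

lemma mem_tau {n : ℕ} {ι : Type} [Fintype ι] [DecidableEq ι] {V : ι → Fin n → ℝ} {F : Finset ι}
    {u : ι} : u ∈ tau V F ↔ ∀ k : Fin n → ℝ, (∀ i, 1 ≤ k ⬝ᵥ V i) →
      (∀ v ∈ F, k ⬝ᵥ V v = 1) → k ⬝ᵥ V u = 1 := by
  classical
  unfold tau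
  simp only [Finset.mem_filter, Finset.mem_univ, true_and]

lemma mem_facesI {n : ℕ} {ι : Type} [Fintype ι] [DecidableEq ι] {V : ι → Fin n →₀ ℕ}
    {G : Finset ι} : G ∈ facesI V ↔ ∃ w : Fin n → ℕ, (∀ j, 0 < w j) ∧
      ∀ i, i ∈ G ↔ ∀ i', ∑ j, w j * V i j ≤ ∑ j, w j * V i' j := by
  classical
  unfold facesI
  simp only [Finset.mem_filter, Finset.mem_univ, true_and]

lemma subset_tau {n : ℕ} {ι : Type} [Fintype ι] [DecidableEq ι] {V : ι → Fin n → ℝ}
    {F : Finset ι} : F ⊆ tau V F := by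
  intro v hv
  rw [mem_tau]
  intro k _ h
  exact h v hv

/-- a real vector close to rational vectors with the same rational relations -/
lemma exists_rat_approx {n : ℕ} {ι : Type} [Fintype ι] (W : ι → Fin n → ℚ) (T : Set ι)
    (d : Fin n → ℝ) (hd : ∀ i ∈ T, ∑ j, d j * (W i j : ℝ) = 0)
    (U : Set (Fin n → ℝ)) (hU : IsOpen U) (hdU : d ∈ U) :
    ∃ q : Fin n → ℚ, (∀ i ∈ T, ∑ j, q j * W i j = 0) ∧ (fun j => (q j : ℝ)) ∈ U := by
  classical
  let B := Module.Basis.ofVectorSpace ℚ ℝ
  let S : Finset _ := Finset.univ.biUnion fun j : Fin n => (B.repr (d j)).support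
  have hexp : ∀ j, d j = ∑ k : S, ((B.repr (d j)) k.1 : ℝ) * B k.1 := by
    intro j
    have h1 := B.linearCombination_repr (d j)
    rw [Finsupp.linearCombination_apply, Finsupp.sum] at h1
    have h2 : ∑ k ∈ (B.repr (d j)).support, (B.repr (d j)) k • B k =
        ∑ k ∈ S, (B.repr (d j)) k • B k := by
      apply Finset.sum_subset
      · intro k hk
        exact Finset.mem_biUnion.2 ⟨j, Finset.mem_univ _, hk⟩
      · intro k _ hk
        rw [Finsupp.notMem_support_iff.1 hk, zero_smul]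
    rw [h2] at h1
    rw [← Finset.sum_coe_sort S] at h1
    conv_lhs => rw [← h1]
    refine Finset.sum_congr rfl fun k _ => ?_
    rw [Rat.smul_def]
  have hrel : ∀ i ∈ T, ∀ k, ∑ j, (B.repr (d j)) k * W i j = 0 := by
    intro i hi k
    have h1 : B.repr (∑ j, (W i j) • d j) = 0 := by
      have : ∑ j, (W i j) • d j = 0 := by
        rw [← hd i hi]
        refine Finset.sum_congr rfl fun j _ => ?_
        rw [Rat.smul_def, mul_comm]
      rw [this, map_zero]
    have h2 := congrArg (fun f => f k) h1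
    simp only [map_sum, map_smul, Finsupp.coe_zero, Pi.zero_apply] at h2
    rw [Finsupp.finsetSum_apply] at h2
    rw [← h2]
    refine Finset.sum_congr rfl fun j _ => ?_
    rw [Finsupp.smul_apply, smul_eq_mul, mul_comm]
  -- the map from parameters
  let Φ : (S → ℝ) → (Fin n → ℝ) := fun θ j => ∑ k : S, ((B.repr (d j)) k.1 : ℝ) * θ k
  have hΦ : Continuous Φ := by
    apply continuous_pi
    intro j
    exact continuous_finsetSum _ fun k _ => continuous_const.mul (continuous_apply k)
  have hopen : IsOpen (Φ ⁻¹' U) := hU.preimage hΦ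
  have hmem : (fun k : S => B k.1) ∈ Φ ⁻¹' U := by
    change Φ _ ∈ U
    have : Φ (fun k : S => B k.1) = d := by
      funext j
      exact (hexp j).symm
    rw [this]; exact hdU
  have hdense : DenseRange (Pi.map (fun (_ : S) (q : ℚ) => (q : ℝ))) :=
    DenseRange.piMap fun _ => Rat.denseRange_cast
  obtain ⟨θ, hθ⟩ := hdense.exists_mem_open hopen ⟨_, hmem⟩
  refine ⟨fun j => ∑ k : S, (B.repr (d j)) k.1 * θ k, ?_, ?_⟩
  · intro i hi
    have : ∑ j, (∑ k : S, (B.repr (d j)) k.1 * θ k) * W i j =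
        ∑ k : S, θ k * ∑ j, (B.repr (d j)) k.1 * W i j := by
      simp_rw [Finset.sum_mul, Finset.mul_sum]
      rw [Finset.sum_comm]
      refine Finset.sum_congr rfl fun k _ => Finset.sum_congr rfl fun j _ => ?_
      ring
    rw [this]
    refine Finset.sum_eq_zero fun k _ => ?_
    rw [hrel i hi k.1, mul_zero]
  · have : Φ (Pi.map (fun (_ : S) (q : ℚ) => (q : ℝ)) θ) =
        fun j => ((∑ k : S, (B.repr (d j)) k.1 * θ k : ℚ) : ℝ) := by
      funext j
      simp only [Φ, Pi.map_apply]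
      push_cast
      rfl
    rw [← this]
    exact hθ

lemma exists_nat_mul {n : ℕ} (q : Fin n → ℚ) (hq : ∀ j, 0 < q j) :
    ∃ (D : ℕ) (w : Fin n → ℕ), 0 < D ∧ (∀ j, 0 < w j) ∧ ∀ j, (w j : ℚ) = D * q j := by
  refine ⟨∏ j, (q j).den, fun j => ((q j).num.toNat) * ∏ i ∈ Finset.univ.erase j, (q i).den, ?_,
    ?_, ?_⟩
  · exact Finset.prod_pos fun j _ => (q j).den_pos
  · intro j
    refine Nat.mul_pos ?_ (Finset.prod_pos fun i _ => (q i).den_pos)
    have : 0 < (q j).num := Rat.num_pos.2 (hq j)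
    omega
  · intro j
    have h1 : 0 < (q j).num := Rat.num_pos.2 (hq j)
    have h2 : (((q j).num.toNat : ℕ) : ℚ) = ((q j).num : ℚ) := by
      have : (((q j).num.toNat : ℕ) : ℤ) = (q j).num := Int.toNat_of_nonneg h1.le
      exact_mod_cast this
    push_cast
    rw [← Finset.mul_prod_erase _ _ (Finset.mem_univ j), h2]
    have h3 : ((q j).num : ℚ) = (q j).den * q j := (Rat.den_mul_eq_num (q j)).symm
    rw [h3]
    ring

/-- the smallest face containing `F` is a compact face -/
theorem tau_mem {n : ℕ} (hn : 0 < n) {ι : Type} [Fintype ι] [DecidableEq ι] {V : ι → Fin n →₀ ℕ}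
    (hconv : ∀ j : Fin n, ∃ i, 0 < V i j ∧ ∀ j', j' ≠ j → V i j' = 0) (F : Finset ι)
    (hne : F ≠ ∅) (k₀ : Fin n → ℚ) (hk₀ : ∀ i, 1 ≤ k₀ ⬝ᵥ qv V i)
    (hk₀' : ∀ v ∈ F, k₀ ⬝ᵥ qv V v = 1) : tau (rV V) F ∈ facesI V := by
  classical
  set T := tau (rV V) F with hT
  have hk0r : ∀ i, (fun j => (k₀ j : ℝ)) ⬝ᵥ rV V i = ((k₀ ⬝ᵥ qv V i : ℚ) : ℝ) := by
    intro i
    simp only [dotProduct, rV, qv]
    push_cast
    rfl
  -- for each u ∉ T a real functional
  have hex : ∀ u : ι, ∃ k : Fin n → ℝ, (∀ i, 1 ≤ k ⬝ᵥ rV V i) ∧ (∀ v ∈ F, k ⬝ᵥ rV V v = 1) ∧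
      (u ∉ T → 1 < k ⬝ᵥ rV V u) := by
    intro u
    by_cases hu : u ∈ T
    · refine ⟨fun j => (k₀ j : ℝ), ?_, ?_, fun h => absurd hu h⟩
      · intro i
        rw [hk0r]
        exact_mod_cast hk₀ i
      · intro v hv
        rw [hk0r, hk₀' v hv]
        norm_num
    · have h1 := hu
      rw [hT, mem_tau] at h1
      push Not at h1
      obtain ⟨k, hk1, hk2, hk3⟩ := h1
      exact ⟨k, hk1, hk2, fun _ => lt_of_le_of_ne (hk1 u) (Ne.symm hk3)⟩
  choose kk hkk1 hkk2 hkk3 using hex
  have hcard : (0 : ℝ) < Fintype.card ι := by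
    obtain ⟨v, hv⟩ := Finset.nonempty_iff_ne_empty.2 hne
    haveI : Nonempty ι := ⟨v⟩
    exact_mod_cast Fintype.card_pos
  -- average
  let ks : Fin n → ℝ := fun j => (∑ u, kk u j) / Fintype.card ι
  have hks : ∀ i, ks ⬝ᵥ rV V i = (∑ u, kk u ⬝ᵥ rV V i) / Fintype.card ι := by
    intro i
    simp only [dotProduct, ks]
    rw [Finset.sum_comm, Finset.sum_div]
    refine Finset.sum_congr rfl fun j _ => ?_
    rw [div_mul_eq_mul_div, Finset.sum_mul]
  have hksT : ∀ i ∈ T, ks ⬝ᵥ rV V i = 1 := by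
    intro i hi
    rw [hks]
    have : ∀ u, kk u ⬝ᵥ rV V i = 1 := by
      intro u
      rw [hT, mem_tau] at hi
      exact hi _ (hkk1 u) (hkk2 u)
    simp only [this, Finset.sum_const, Finset.card_univ, nsmul_eq_mul, mul_one]
    exact div_self hcard.ne'
  have hksN : ∀ i, i ∉ T → 1 < ks ⬝ᵥ rV V i := by
    intro i hi
    rw [hks, lt_div_iff₀ hcard, one_mul]
    have : (∑ _u : ι, (1 : ℝ)) < ∑ u, kk u ⬝ᵥ rV V i :=
      Finset.sum_lt_sum (fun u _ => hkk1 u i) ⟨i, Finset.mem_univ _, hkk3 i hi⟩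
    simpa using this
  -- rational
  have hk0T : ∀ i ∈ T, k₀ ⬝ᵥ qv V i = 1 := by
    intro i hi
    rw [hT, mem_tau] at hi
    have := hi (fun j => (k₀ j : ℝ)) (fun i => by rw [hk0r]; exact_mod_cast hk₀ i)
      (fun v hv => by rw [hk0r, hk₀' v hv]; norm_num)
    rw [hk0r] at this
    exact_mod_cast this
  let U : Set (Fin n → ℝ) := {x | ∀ i, i ∉ T → 1 < (fun j => (k₀ j : ℝ) + x j) ⬝ᵥ rV V i}
  have hU : IsOpen U := by
    have : U = ⋂ i : ι, {x | i ∉ T → 1 < (fun j => (k₀ j : ℝ) + x j) ⬝ᵥ rV V i} := by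
      ext x; simp [U]
    rw [this]
    refine isOpen_iInter_of_finite fun i => ?_
    by_cases hi : i ∈ T
    · simp [hi]
    · simp only [hi, not_false_eq_true, forall_const]
      refine isOpen_lt continuous_const ?_
      simp only [dotProduct]
      exact continuous_finsetSum _ fun j _ =>
        (continuous_const.add (continuous_apply j)).mul continuous_const
  obtain ⟨q, hq1, hq2⟩ := exists_rat_approx (fun i j => (qv V i j)) (T : Set ι)
    (fun j => ks j - k₀ j) (by
      intro i hi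
      have h1 := hksT i hi
      have h2 := hk0T i hi
      have h3 : (fun j => (k₀ j : ℝ)) ⬝ᵥ rV V i = 1 := by rw [hk0r, h2]; norm_num
      have : ∑ j, (ks j - k₀ j) * ((qv V i j : ℚ) : ℝ) =
          ks ⬝ᵥ rV V i - (fun j => (k₀ j : ℝ)) ⬝ᵥ rV V i := by
        simp only [dotProduct, rV, qv, ← Finset.sum_sub_distrib]
        refine Finset.sum_congr rfl fun j _ => ?_
        push_cast
        ring
      rw [this, h1, h3, sub_self]) U hU (by
      intro i hi
      have : (fun j => (k₀ j : ℝ) + (ks j - k₀ j)) = ks := by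
        funext j; ring
      change 1 < (fun j => (k₀ j : ℝ) + (ks j - k₀ j)) ⬝ᵥ rV V i
      rw [this]
      exact hksN i hi)
  let k : Fin n → ℚ := fun j => k₀ j + q j
  have hkT : ∀ i ∈ T, k ⬝ᵥ qv V i = 1 := by
    intro i hi
    have h1 := hk0T i hi
    have h2 := hq1 i hi
    have : k ⬝ᵥ qv V i = k₀ ⬝ᵥ qv V i + ∑ j, q j * qv V i j := by
      simp only [dotProduct, k, ← Finset.sum_add_distrib]
      refine Finset.sum_congr rfl fun j _ => ?_
      ring
    rw [this, h1, h2, add_zero]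
  have hkN : ∀ i, i ∉ T → 1 < k ⬝ᵥ qv V i := by
    intro i hi
    have h1 := hq2 i hi
    have : (fun j => (k₀ j : ℝ) + (q j : ℝ)) ⬝ᵥ rV V i = ((k ⬝ᵥ qv V i : ℚ) : ℝ) := by
      simp only [dotProduct, rV, qv, k]
      push_cast
      rfl
    rw [this] at h1
    exact_mod_cast h1
  have hkge : ∀ i, 1 ≤ k ⬝ᵥ qv V i := by
    intro i
    by_cases hi : i ∈ T
    · exact (hkT i hi).ge
    · exact (hkN i hi).le
  have hkpos : ∀ j, 0 < k j := by
    intro j
    obtain ⟨i, hi1, hi2⟩ := hconv j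
    have h1 := hkge i
    have : k ⬝ᵥ qv V i = k j * V i j := by
      simp only [dotProduct, qv]
      rw [Finset.sum_eq_single j]
      · intro j' _ hj'
        rw [hi2 j' hj']; simp
      · intro h; exact absurd (Finset.mem_univ _) h
    rw [this] at h1
    have h2 : (0 : ℚ) < V i j := by exact_mod_cast hi1
    by_contra hcon
    push Not at hcon
    nlinarith
  obtain ⟨D, w, hD, hw, hwk⟩ := exists_nat_mul k hkpos
  rw [mem_facesI]
  refine ⟨w, hw, ?_⟩
  have hsum : ∀ i, ((∑ j, w j * V i j : ℕ) : ℚ) = D * (k ⬝ᵥ qv V i) := by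
    intro i
    push_cast
    simp only [dotProduct, qv, Finset.mul_sum]
    refine Finset.sum_congr rfl fun j _ => ?_
    rw [hwk j]; ring
  have hDq : (0 : ℚ) < D := by exact_mod_cast hD
  intro i
  constructor
  · intro hi i'
    have : ((∑ j, w j * V i j : ℕ) : ℚ) ≤ ((∑ j, w j * V i' j : ℕ) : ℚ) := by
      rw [hsum, hsum, hkT i hi]
      exact mul_le_mul_of_nonneg_left (hkge i') hDq.le
    exact_mod_cast this
  · intro h
    by_contra hi
    obtain ⟨v, hv⟩ := Finset.nonempty_iff_ne_empty.2 hne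
    have h1 := h v
    have h2 : ((∑ j, w j * V i j : ℕ) : ℚ) ≤ ((∑ j, w j * V v j : ℕ) : ℚ) := by
      exact_mod_cast h1
    rw [hsum, hsum, hkT v (subset_tau hv)] at h2
    have h3 := hkN i hi
    have h4 := mul_lt_mul_of_pos_left h3 hDq
    linarith

/-- the dimension of the span of a set on which a linear form is one -/
lemma finrank_span_eq {n : ℕ} (S : Set (Fin n → ℝ)) (hS : S.Nonempty) (φ : (Fin n → ℝ) →ₗ[ℝ] ℝ)
    (hφ : ∀ x ∈ S, φ x = 1) :
    Module.finrank ℝ (Submodule.span ℝ S) = Module.finrank ℝ (vectorSpan ℝ S) + 1 := by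
  obtain ⟨p, hp⟩ := hS
  have hvs : vectorSpan ℝ S ≤ LinearMap.ker φ := by
    rw [vectorSpan, Submodule.span_le]
    rintro _ ⟨x, hx, y, hy, rfl⟩
    simp only [vsub_eq_sub, SetLike.mem_coe, LinearMap.mem_ker, map_sub, hφ x hx, hφ y hy, sub_self]
  have hp0 : p ≠ 0 := by
    intro h
    have := hφ p hp
    rw [h, map_zero] at this
    exact zero_ne_one this
  have hsup : Submodule.span ℝ S = vectorSpan ℝ S ⊔ Submodule.span ℝ {p} := by
    apply le_antisymm
    · rw [Submodule.span_le]
      intro x hx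
      have h1 : x = (x - p) + p := by ring
      rw [h1]
      refine Submodule.add_mem _ ?_ ?_
      · exact Submodule.mem_sup_left (vsub_mem_vectorSpan ℝ hx hp)
      · exact Submodule.mem_sup_right (Submodule.subset_span rfl)
    · refine sup_le ?_ ?_
      · rw [vectorSpan, Submodule.span_le]
        rintro _ ⟨x, hx, y, hy, rfl⟩
        exact Submodule.sub_mem _ (Submodule.subset_span hx) (Submodule.subset_span hy)
      · rw [Submodule.span_le, Set.singleton_subset_iff]
        exact Submodule.subset_span hp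
  have hinf : vectorSpan ℝ S ⊓ Submodule.span ℝ {p} = ⊥ := by
    rw [eq_bot_iff]
    rintro x ⟨hx1, hx2⟩
    obtain ⟨c, rfl⟩ := Submodule.mem_span_singleton.1 hx2
    have h1 := hvs hx1
    rw [LinearMap.mem_ker, map_smul, hφ p hp, smul_eq_mul, mul_one] at h1
    rw [h1, zero_smul]
    exact Submodule.zero_mem _
  have h := Submodule.finrank_sup_add_finrank_inf_eq (vectorSpan ℝ S) (Submodule.span ℝ {p})
  rw [← hsup, hinf, finrank_bot, finrank_span_singleton hp0] at h
  simpa using h

/-- `F ⊆ G`, `G` a face: `F` spans `G` iff `G = tau F` and the exponents of `tau F` are affine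
combinations of those of `F`. -/
theorem span_iff {n : ℕ} (hn : 0 < n) {ι : Type} [Fintype ι] [DecidableEq ι] {V : ι → Fin n →₀ ℕ}
    (hconv : ∀ j : Fin n, ∃ i, 0 < V i j ∧ ∀ j', j' ≠ j → V i j' = 0) (hV : ∀ i, V i ≠ 0)
    (F : Finset ι) (hne : F ≠ ∅)
    (hli : LinearIndependent ℝ (fun v : {v // v ∈ F} => rV V v)) (G : Finset ι)
    (hG : G ∈ facesI V) :
    (F ⊆ G ∧ F.card = fdim (ex V G) + 1) ↔ (tau (rV V) F = G ∧ ∀ u ∈ tau (rV V) F,
      hv 1 (rV V u) ∈ Submodule.span ℝ ((fun v => hv 1 (rV V v)) '' (F : Set ι))) := by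
  classical
  obtain ⟨w, hw, hwG⟩ := mem_facesI.1 hG
  obtain ⟨v0, hv0⟩ := Finset.nonempty_iff_ne_empty.2 hne
  haveI : Nonempty ι := ⟨v0⟩
  -- the minimum
  obtain ⟨i0, hi0⟩ := Finite.exists_min (fun i => ∑ j, w j * V i j)
  have hi0G : i0 ∈ G := (hwG i0).2 hi0
  set c : ℕ := ∑ j, w j * V i0 j with hc
  have hcpos : 0 < c := by
    have h1 := hV i0
    obtain ⟨j, hj⟩ := Finsupp.ne_iff.1 h1
    rw [Finsupp.coe_zero, Pi.zero_apply] at hj
    have : w j * V i0 j ≤ c := by
      rw [hc]
      exact Finset.single_le_sum (f := fun j => w j * V i0 j) (fun _ _ => Nat.zero_le _)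
        (Finset.mem_univ j)
    have h2 : 0 < w j * V i0 j := Nat.mul_pos (hw j) (Nat.pos_of_ne_zero hj)
    omega
  have hcr : (0 : ℝ) < c := by exact_mod_cast hcpos
  let k : Fin n → ℝ := fun j => (w j : ℝ) / c
  have hkV : ∀ i, k ⬝ᵥ rV V i = ((∑ j, w j * V i j : ℕ) : ℝ) / c := by
    intro i
    simp only [dotProduct, k, rV]
    push_cast
    rw [Finset.sum_div]
    refine Finset.sum_congr rfl fun j _ => ?_
    ring
  have hk1 : ∀ i, 1 ≤ k ⬝ᵥ rV V i := by
    intro i
    rw [hkV, le_div_iff₀ hcr, one_mul]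
    exact_mod_cast hi0 i
  have hkG : ∀ i, i ∈ G ↔ k ⬝ᵥ rV V i = 1 := by
    intro i
    rw [hkV, div_eq_one_iff_eq hcr.ne']
    constructor
    · intro hi
      have h1 := (hwG i).1 hi i0
      have h2 := hi0 i
      have : ∑ j, w j * V i j = c := le_antisymm h1 h2
      exact_mod_cast this
    · intro h
      rw [hwG]
      intro i'
      have h2 : ∑ j, w j * V i j = c := by exact_mod_cast h
      rw [h2]
      exact hi0 i'
  -- the linear form
  let φ : (Fin n → ℝ) →ₗ[ℝ] ℝ :=
    { toFun := fun x => k ⬝ᵥ x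
      map_add' := fun x y => by rw [dotProduct_add]
      map_smul' := fun a x => by rw [dotProduct_smul]; rfl }
  have hφ : ∀ x, φ x = k ⬝ᵥ x := fun _ => rfl
  let L : (Fin n → ℝ) →ₗ[ℝ] (Fin (n + 1) → ℝ) :=
    { toFun := fun x => Fin.cons (-(k ⬝ᵥ x)) x
      map_add' := fun x y => by
        funext j
        refine Fin.cases ?_ (fun i => ?_) j
        · simp only [Fin.cons_zero, Pi.add_apply, dotProduct_add]; ring
        · simp only [Fin.cons_succ, Pi.add_apply]
      map_smul' := fun a x => by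
        funext j
        refine Fin.cases ?_ (fun i => ?_) j
        · simp only [Fin.cons_zero, Pi.smul_apply, dotProduct_smul, smul_eq_mul, RingHom.id_apply]
          ring
        · simp only [Fin.cons_succ, Pi.smul_apply, smul_eq_mul, RingHom.id_apply] }
  have hL : ∀ x, L x = Fin.cons (-(k ⬝ᵥ x)) x := fun _ => rfl
  have hLG : ∀ u ∈ G, hv 1 (rV V u) = L (rV V u) := by
    intro u hu
    rw [hL, (hkG u).1 hu]
    rfl
  -- tail
  let P : (Fin (n + 1) → ℝ) →ₗ[ℝ] (Fin n → ℝ) :=
    { toFun := fun x => fun j => x j.succ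
      map_add' := fun x y => rfl
      map_smul' := fun a x => rfl }
  have hPhv : ∀ u, P (hv 1 (rV V u)) = rV V u := by
    intro u
    funext j
    simp only [P, hv, LinearMap.coe_mk, AddHom.coe_mk, Fin.cons_succ]
  have hset : (rv '' (ex V G : Set (Fin n →₀ ℕ))) = (fun u => rV V u) '' (G : Set ι) := by
    ext x
    simp only [ex, Finset.coe_image, Set.mem_image]
    constructor
    · rintro ⟨_, ⟨u, hu, rfl⟩, rfl⟩
      exact ⟨u, hu, rfl⟩
    · rintro ⟨u, hu, rfl⟩
      exact ⟨_, ⟨u, hu, rfl⟩, rfl⟩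
  have hfdim : fdim (ex V G) + 1 =
      Module.finrank ℝ (Submodule.span ℝ ((fun u => rV V u) '' (G : Set ι))) := by
    rw [fdim, hset]
    symm
    apply finrank_span_eq _ _ φ
    · rintro _ ⟨u, hu, rfl⟩
      rw [hφ]
      exact (hkG u).1 hu
    · exact ⟨_, i0, hi0G, rfl⟩
  have hFspan : Module.finrank ℝ (Submodule.span ℝ ((fun u => rV V u) '' (F : Set ι))) =
      F.card := by
    have h1 := finrank_span_eq_card hli
    have h2 : Set.range (fun v : {v // v ∈ F} => rV V v) = (fun u => rV V u) '' (F : Set ι) := by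
      ext x
      simp
    rw [h2] at h1
    rw [h1, Fintype.card_coe]
  constructor
  · rintro ⟨hFG, hcard⟩
    have hle : Submodule.span ℝ ((fun u => rV V u) '' (F : Set ι)) ≤
        Submodule.span ℝ ((fun u => rV V u) '' (G : Set ι)) :=
      Submodule.span_mono (Set.image_mono (by exact_mod_cast hFG))
    have heq : Submodule.span ℝ ((fun u => rV V u) '' (F : Set ι)) =
        Submodule.span ℝ ((fun u => rV V u) '' (G : Set ι)) := by
      apply Submodule.eq_of_le_of_finrank_eq hle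
      rw [hFspan, hcard, hfdim]
    have hmemF : ∀ u ∈ G, rV V u ∈ Submodule.span ℝ ((fun u => rV V u) '' (F : Set ι)) := by
      intro u hu
      rw [heq]
      exact Submodule.subset_span ⟨u, hu, rfl⟩
    have htau : tau (rV V) F = G := by
      apply Finset.Subset.antisymm
      · intro u hu
        rw [mem_tau] at hu
        rw [hkG]
        exact hu k hk1 fun v hv => (hkG v).1 (hFG hv)
      · intro u hu
        rw [mem_tau]
        intro k' hk'1 hk'F
        have h1 := hmemF u hu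
        -- k' and k agree on the span of F
        have h2 : ∀ x ∈ Submodule.span ℝ ((fun u => rV V u) '' (F : Set ι)),
            k' ⬝ᵥ x = k ⬝ᵥ x := by
          intro x hx
          induction hx using Submodule.span_induction with
          | mem x hx =>
            obtain ⟨v, hv, rfl⟩ := hx
            rw [hk'F v hv]
            exact ((hkG v).1 (hFG hv)).symm
          | zero => simp
          | add x y _ _ hx hy => rw [dotProduct_add, dotProduct_add, hx, hy]
          | smul a x _ hx => rw [dotProduct_smul, dotProduct_smul, hx]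
        rw [h2 _ h1]
        exact (hkG u).1 hu
    refine ⟨htau, ?_⟩
    rw [htau]
    intro u hu
    rw [hLG u hu]
    have h1 : L (rV V u) ∈ Submodule.map L
        (Submodule.span ℝ ((fun u => rV V u) '' (F : Set ι))) :=
      Submodule.mem_map_of_mem (hmemF u hu)
    rw [Submodule.map_span] at h1
    have h2 : L '' ((fun u => rV V u) '' (F : Set ι)) =
        (fun v => hv 1 (rV V v)) '' (F : Set ι) := by
      rw [Set.image_image]
      apply Set.image_congr
      intro v hv
      exact (hLG v (hFG hv)).symm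
    rw [h2] at h1
    exact h1
  · rintro ⟨htau, hsp⟩
    have hFG : F ⊆ G := htau ▸ subset_tau
    refine ⟨hFG, ?_⟩
    rw [hfdim, ← hFspan]
    have : Submodule.span ℝ ((fun u => rV V u) '' (F : Set ι)) =
        Submodule.span ℝ ((fun u => rV V u) '' (G : Set ι)) := by
      apply le_antisymm
      · exact Submodule.span_mono (Set.image_mono (by exact_mod_cast hFG))
      · rw [Submodule.span_le]
        rintro _ ⟨u, hu, rfl⟩
        rw [htau] at hsp
        have h1 := hsp u hu
        have h2 := Submodule.mem_map_of_mem (f := P) h1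
        rw [Submodule.map_span, Set.image_image, hPhv] at h2
        have h3 : (fun x => P (hv 1 (rV V x))) '' (F : Set ι) =
            (fun u => rV V u) '' (F : Set ι) := by
          apply Set.image_congr
          intro v _
          exact hPhv v
        rw [h3] at h2
        exact h2
    rw [this]

end Pool.Agent.helper81.DL
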